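import Pool.Agent.TH686.NF.Transfer
import Pool.Agent.W882.Nip3.Main3

/-!
# Completions with respect to a valuation with values in the nonnegative real numbers
-/

set_option autoImplicit false

namespace Pool.Agent.TH686.NF

open Polynomial Pool.Agent.W882.Nip3 NNReal

variable {κ : Type} [Field κ]

/-- the absolute value given by a valuation -/
noncomputable def absOf (v : Valuation κ ℝ≥0) : AbsoluteValue κ ℝ where
  toFun x := v x
  map_mul' x y := by rw [map_mul]; push_cast; rfl
  nonneg' x := NNReal.coe_nonneg _
  eq_zero' x := by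
    rw [NNReal.coe_eq_zero]
    exact v.zero_iff
  add_le' x y := by
    have h1 : v (x + y) ≤ v x + v y :=
      (v.map_add x y).trans (max_le (le_add_of_nonneg_right zero_le) (le_add_of_nonneg_left zero_le))
    exact_mod_cast h1

/-- the completion -/
abbrev Cp (v : Valuation κ ℝ≥0) : Type := (absOf v).Completion

/-- the embedding into the completion -/
noncomputable def emb (v : Valuation κ ℝ≥0) : κ →+* Cp v :=
  (UniformSpace.Completion.coeRingHom).comp
    ((WithAbs.equiv (absOf v)).symm : κ ≃+* WithAbs (absOf v)).toRingHom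

theorem norm_emb (v : Valuation κ ℝ≥0) (x : κ) : ‖emb v x‖ = v x := by
  change ‖((WithAbs.toAbs (absOf v) x : WithAbs (absOf v)) : Cp v)‖ = _
  rw [UniformSpace.Completion.norm_coe]
  rfl

theorem dense_emb (v : Valuation κ ℝ≥0) : DenseRange (emb v) := by
  have h1 : DenseRange (fun x : WithAbs (absOf v) => (x : Cp v)) :=
    UniformSpace.Completion.denseRange_coe
  have h2 : Set.range (emb v) = Set.range (fun x : WithAbs (absOf v) => (x : Cp v)) := by
    ext y
    constructor
    · rintro ⟨x, rfl⟩
      exact ⟨_, rfl⟩
    · rintro ⟨x, rfl⟩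
      exact ⟨WithAbs.equiv (absOf v) x, rfl⟩
  unfold DenseRange
  rw [h2]
  exact h1

instance ultra (v : Valuation κ ℝ≥0) : IsUltrametricDist (Cp v) := by
  refine IsUltrametricDist.isUltrametricDist_of_forall_norm_add_le_max_norm (fun x y => ?_)
  have hcl : IsClosed {p : Cp v × Cp v | ‖p.1 + p.2‖ ≤ max ‖p.1‖ ‖p.2‖} :=
    isClosed_le (by fun_prop) (by fun_prop)
  have hd : DenseRange (Prod.map (emb v) (emb v)) := (dense_emb v).prodMap (dense_emb v)
  have h3 := hd.induction_on (p := fun p : Cp v × Cp v => ‖p.1 + p.2‖ ≤ max ‖p.1‖ ‖p.2‖)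
    (x, y) hcl (fun p => by
      simp only [Prod.map_fst, Prod.map_snd]
      rw [← map_add, norm_emb, norm_emb, norm_emb]
      exact_mod_cast v.map_add p.1 p.2)
  exact h3

theorem val_emb (v : Valuation κ ℝ≥0) (x : κ) : NormedField.valuation (emb v x) = v x := by
  exact NNReal.coe_injective (norm_emb v x)

theorem near (v : Valuation κ ℝ≥0) (y : Cp v) (hy : y ≠ 0) :
    ∃ x : κ, NormedField.valuation (y - emb v x) < NormedField.valuation y := by
  obtain ⟨x, hx⟩ := (dense_emb v).exists_dist_lt y (norm_pos_iff.2 hy)
  refine ⟨x, ?_⟩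
  rw [dist_eq_norm] at hx
  exact_mod_cast hx

/-- the completion as a nontrivially normed field -/
@[reducible] noncomputable def ntr (v : Valuation κ ℝ≥0) (h : ∃ a, 1 < v a) : NontriviallyNormedField (Cp v) where
  non_trivial := by
    obtain ⟨a, ha⟩ := h
    refine ⟨emb v a, ?_⟩
    rw [norm_emb]
    exact_mod_cast ha

/-- the main lemma: the completion does not have dimension at most one -/
theorem not_dimLe_compl (v : Valuation κ ℝ≥0) {d : ℕ} (hd : 1 ≤ d) {a : κ}
    (ha : ∀ c, v a ≠ v c ^ d) (L : Type) [Field L]
    [Algebra (IsLocalRing.ResidueField v.valuationSubring) L]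
    [Algebra.IsSeparable (IsLocalRing.ResidueField v.valuationSubring) L]
    (hL : Module.finrank (IsLocalRing.ResidueField v.valuationSubring) L = d) {D : ℕ}
    (hD : d ≤ D) : ¬ DimLeOneUpTo (Cp v) D := by
  have hfin : FiniteDimensional (IsLocalRing.ResidueField v.valuationSubring) L :=
    FiniteDimensional.of_finrank_pos (by omega)
  obtain ⟨α, hα⟩ := Field.exists_primitive_element
    (IsLocalRing.ResidueField v.valuationSubring) L
  set h := minpoly (IsLocalRing.ResidueField v.valuationSubring) α with hh
  have hint : IsIntegral (IsLocalRing.ResidueField v.valuationSubring) α :=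
    Algebra.IsIntegral.isIntegral α
  have hm : h.Monic := minpoly.monic hint
  have hi : Irreducible h := minpoly.irreducible hint
  have hs : h.Separable := Algebra.IsSeparable.isSeparable _ α
  have hdeg : h.natDegree = d := by
    rw [← hL, ← IntermediateField.finrank_top', ← hα]
    exact (IntermediateField.adjoin.finrank hint).symm
  have hl : h ∈ lifts (IsLocalRing.residue v.valuationSubring) := by
    rw [lifts_iff_coeff_lifts]
    intro n
    exact IsLocalRing.residue_surjective _
  obtain ⟨f, hf1, hf2, hf3⟩ := lifts_and_natDegree_eq_and_monic hl hm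
  have ht := transfer v (NormedField.valuation (K := Cp v)) (emb v) (val_emb v) (near v) f
    (by rw [hf1]; exact hi) (by rw [hf1]; exact hs)
  have ha0 : a ≠ 0 := by
    rintro rfl
    apply ha 0
    rw [map_zero, zero_pow (by omega)]
  have hgd : (f.map (jj v (NormedField.valuation (K := Cp v)) (emb v) (val_emb v))).natDegree = d := by
    rw [hf3.natDegree_map, hf2, hdeg]
  refine not_dimLe (NormedField.valuation (K := Cp v)) _ (hf3.map _) ht.1 ht.2
    (a := emb v a) (by rwa [Ne, map_eq_zero]) ?_ (hd.trans hD) (by rw [hgd]; exact hD)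
  intro c hc
  rw [hgd, val_emb] at hc
  by_cases hc0 : c = 0
  · rw [hc0, map_zero, zero_pow (by omega)] at hc
    exact ha0 (v.zero_iff.1 hc)
  · obtain ⟨x, hx⟩ := near v c hc0
    apply ha x
    rw [hc]
    congr 1
    have h1 : NormedField.valuation (emb v x) = NormedField.valuation c := by
      have e1 : emb v x = c - (c - emb v x) := by ring
      rw [e1]
      exact Valuation.map_sub_eq_of_lt_left _ hx
    exact h1.symm.trans (val_emb v x)

end Pool.Agent.TH686.NF
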