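import Pool.Agent.TH686.NF.Compl

/-!
# Norms from ramified extensions of prime degree
-/

set_option autoImplicit false

namespace Pool.Agent.TH686.NF

open Polynomial Pool.Agent.W882.Nip3 NNReal

section

variable {F : Type} [NontriviallyNormedField F] [IsUltrametricDist F] [CompleteSpace F]

theorem norm_norm' {L : Type} [Field L] [Algebra F L] [FiniteDimensional F L]
    [Algebra.IsSeparable F L] (x : L) :
    ‖Algebra.norm F x‖ = spectralNorm F L x ^ Module.finrank F L := by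
  have h := Algebra.norm_eq_prod_embeddings F (AlgebraicClosure F) x
  have h1 : ‖Algebra.norm F x‖ = spectralMulAlgNorm F (AlgebraicClosure F)
      (algebraMap F (AlgebraicClosure F) (Algebra.norm F x)) := (spectralNorm_extends _).symm
  rw [h1, h, map_prod]
  have h2 : ∀ σ : L →ₐ[F] AlgebraicClosure F,
      spectralMulAlgNorm F (AlgebraicClosure F) (σ x) = spectralNorm F L x := by
    intro σ
    rw [spectralMulAlgNorm_def]
    unfold spectralNorm
    rw [minpoly.algHom_eq σ σ.injective]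
  simp only [h2, Finset.prod_const, Finset.card_univ, AlgHom.card]

omit [IsUltrametricDist F] [CompleteSpace F] in
/-- a norm that is an `ℓ`-th power up to small exponents is an `ℓ`-th power -/
theorem coprime_pow {ℓ : ℕ} (hℓ : ℓ.Prime) {a : F} (ha0 : a ≠ 0) {n : ℕ} (hn0 : 0 < n)
    (hn : n < ℓ) {c : F} (h : ‖a‖ ^ n = ‖c‖ ^ ℓ) : ∃ e : F, ‖a‖ = ‖e‖ ^ ℓ := by
  have hcop : Nat.Coprime n ℓ := by
    rw [Nat.coprime_comm]
    exact (Nat.Prime.coprime_iff_not_dvd hℓ).2 (Nat.not_dvd_of_pos_of_lt hn0 hn)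
  have hb := Nat.gcd_eq_gcd_ab n ℓ
  rw [hcop.gcd_eq_one] at hb
  set u := Nat.gcdA n ℓ
  set w := Nat.gcdB n ℓ
  refine ⟨c ^ u * a ^ w, ?_⟩
  have hna : ‖a‖ ≠ 0 := norm_ne_zero_iff.2 ha0
  calc ‖a‖ = ‖a‖ ^ (1 : ℤ) := (zpow_one _).symm
    _ = ‖a‖ ^ ((n : ℤ) * u + ℓ * w) := by rw [← hb]; rfl
    _ = (‖a‖ ^ n) ^ u * (‖a‖ ^ ℓ) ^ w := by
      rw [zpow_add₀ hna, zpow_mul, zpow_mul, zpow_natCast, zpow_natCast]
    _ = (‖c‖ ^ ℓ) ^ u * (‖a‖ ^ ℓ) ^ w := by rw [h]
    _ = ‖c ^ u * a ^ w‖ ^ ℓ := by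
      rw [norm_mul, norm_zpow, norm_zpow, mul_pow, ← zpow_natCast, ← zpow_natCast,
        ← zpow_natCast, ← zpow_natCast, ← zpow_mul, ← zpow_mul, ← zpow_mul, ← zpow_mul,
        mul_comm u, mul_comm w]

theorem ram_not_dimLe {ℓ : ℕ} (hℓ : ℓ.Prime) (hchar : (ℓ : F) ≠ 0) {a b : F} (ha0 : a ≠ 0)
    (ha : ∀ c : F, ‖a‖ ≠ ‖c‖ ^ ℓ) (hb : ∀ (c : F) (i : ℕ), ‖b‖ ≠ ‖c‖ ^ ℓ * ‖a‖ ^ i) {D : ℕ}
    (hD : ℓ ≤ D) : ¬ DimLeOneUpTo F D := by
  intro H
  have hirr : Irreducible (X ^ ℓ - C a) := by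
    refine X_pow_sub_C_irreducible_of_prime hℓ (fun c hc => ha c ?_)
    rw [← hc, norm_pow]
  have hsep : (X ^ ℓ - C a).Separable := separable_X_pow_sub_C a hchar ha0
  have hm : (X ^ ℓ - C a).Monic := monic_X_pow_sub_C a hℓ.ne_zero
  have hdeg : (X ^ ℓ - C a).natDegree = ℓ := natDegree_X_pow_sub_C
  obtain ⟨G, hG⟩ : ∃ G, G = X ^ ℓ - C a := ⟨_, rfl⟩
  rw [← hG] at hirr hsep hm hdeg
  let _ : Fact (Irreducible G) := ⟨hirr⟩
  have h1 : FiniteDimensional F (AdjoinRoot G) := hm.finite_adjoinRoot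
  have h2 : Algebra.IsSeparable F (AdjoinRoot G) := isSeparable_adjoinRoot hirr hsep
  have hfr : Module.finrank F (AdjoinRoot G) = ℓ := by
    rw [Module.finrank_eq_card_basis (AdjoinRoot.powerBasisAux' hm), Fintype.card_fin, hdeg]
  obtain ⟨z, hz⟩ := H F inferInstance inferInstance
    (by rw [Module.finrank_self]; exact hℓ.one_lt.le.trans hD)
    (AdjoinRoot G) h1 h2 (by rw [hfr]; exact hD) b
  have hb0 : b ≠ 0 := by
    intro h
    apply hb 0 0
    rw [h, norm_zero, zero_pow hℓ.ne_zero, zero_mul]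
  have hz0 : z ≠ 0 := by
    intro h
    apply hb0
    rw [← hz, h, Algebra.norm_zero]
  set s : MulAlgebraNorm F (AdjoinRoot G) := spectralMulAlgNorm F (AdjoinRoot G) with hs
  have hsz : s z ^ ℓ = ‖b‖ := by
    rw [← hz, norm_norm' z, hfr]
    rfl
  -- the root
  set α := AdjoinRoot.root G with hα
  have hαpow : α ^ ℓ = algebraMap F (AdjoinRoot G) a := by
    have h3 : AdjoinRoot.mk G (X ^ ℓ - C a) = 0 := by rw [← hG]; exact AdjoinRoot.mk_self
    rw [map_sub, map_pow, AdjoinRoot.mk_X, AdjoinRoot.mk_C, sub_eq_zero] at h3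
    exact h3
  have hext : ∀ c : F, s (algebraMap F (AdjoinRoot G) c) = ‖c‖ := fun c => spectralNorm_extends c
  have hsα : s α ^ ℓ = ‖a‖ := by rw [← map_pow, hαpow, hext]
  -- the expansion
  obtain ⟨Y0, hY0⟩ := AdjoinRoot.mk_surjective z
  set Y := Y0 %ₘ G with hY
  have hzY : z = ∑ i ∈ Finset.range ℓ, algebraMap F (AdjoinRoot G) (Y.coeff i) * α ^ i := by
    have h3 : z = AdjoinRoot.mk G Y := by
      rw [← hY0, AdjoinRoot.mk_eq_mk, hY, modByMonic_eq_sub_mul_div, sub_sub_cancel]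
      exact dvd_mul_right _ _
    have h4 : Y.natDegree < ℓ := by
      have h5 : Y.degree < G.degree := degree_modByMonic_lt _ hm
      rw [degree_eq_natDegree hm.ne_zero, hdeg] at h5
      by_cases hY1 : Y = 0
      · rw [hY1, natDegree_zero]
        exact hℓ.pos
      · rw [degree_eq_natDegree hY1] at h5
        exact_mod_cast h5
    rw [h3]
    conv_lhs => rw [as_sum_range' Y ℓ h4]
    rw [map_sum]
    refine Finset.sum_congr rfl (fun i _ => ?_)
    rw [← C_mul_X_pow_eq_monomial, map_mul, map_pow, AdjoinRoot.mk_X, AdjoinRoot.mk_C]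
    rfl
  have hterm : ∀ i, s (algebraMap F (AdjoinRoot G) (Y.coeff i) * α ^ i) =
      ‖Y.coeff i‖ * s α ^ i := fun i => by rw [map_mul, map_pow, hext]
  obtain ⟨k, hk, hmax⟩ := (Finset.range ℓ).exists_max_image
    (fun i => s (algebraMap F (AdjoinRoot G) (Y.coeff i) * α ^ i))
    ⟨0, Finset.mem_range.2 hℓ.pos⟩
  have hk0 : Y.coeff k ≠ 0 := by
    intro h
    have h5 : ∀ i ∈ Finset.range ℓ, algebraMap F (AdjoinRoot G) (Y.coeff i) * α ^ i = 0 := by
      intro i hi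
      have h6 := hmax i hi
      rw [h, map_zero, zero_mul, map_zero] at h6
      exact (map_eq_zero_iff_eq_zero s).1 (le_antisymm h6 (apply_nonneg s _))
    apply hz0
    rw [hzY]
    exact Finset.sum_eq_zero h5
  have hα0 : 0 < s α := by
    rcases (apply_nonneg s α).eq_or_lt with h | h
    · rw [← h, zero_pow hℓ.ne_zero] at hsα
      exact absurd (norm_eq_zero.1 hsα.symm) ha0
    · exact h
  have hlt : ∀ j ∈ Finset.range ℓ, j ≠ k →
      s (algebraMap F (AdjoinRoot G) (Y.coeff j) * α ^ j) <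
        s (algebraMap F (AdjoinRoot G) (Y.coeff k) * α ^ k) := by
    intro j hj hjk
    refine lt_of_le_of_ne (hmax j hj) (fun heq => ?_)
    rw [hterm, hterm] at heq
    have hcj : Y.coeff j ≠ 0 := by
      intro h
      rw [h, norm_zero, zero_mul] at heq
      exact (mul_pos (norm_pos_iff.2 hk0) (pow_pos hα0 k)).ne heq
    have h6 : ‖Y.coeff j‖ ^ ℓ * ‖a‖ ^ j = ‖Y.coeff k‖ ^ ℓ * ‖a‖ ^ k := by
      have h7 := congrArg (fun t => t ^ ℓ) heq
      simp only [mul_pow, ← pow_mul] at h7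
      rw [mul_comm j ℓ, mul_comm k ℓ, pow_mul, pow_mul, hsα] at h7
      exact h7
    have hna : ‖a‖ ≠ 0 := norm_ne_zero_iff.2 ha0
    have key : ∀ p q : ℕ, p < q → q < ℓ → Y.coeff p ≠ 0 → Y.coeff q ≠ 0 →
        ‖Y.coeff p‖ ^ ℓ * ‖a‖ ^ p = ‖Y.coeff q‖ ^ ℓ * ‖a‖ ^ q → False := by
      intro p q hpq hq hp0 hq0 h8
      have h9 : ‖a‖ ^ (q - p) = ‖Y.coeff p / Y.coeff q‖ ^ ℓ := by
        rw [norm_div, div_pow, eq_div_iff (pow_ne_zero _ (norm_ne_zero_iff.2 hq0))]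
        have h10 : ‖a‖ ^ q = ‖a‖ ^ (q - p) * ‖a‖ ^ p := by
          rw [← pow_add]
          congr 1
          omega
        rw [h10] at h8
        have h11 : ‖a‖ ^ p ≠ 0 := pow_ne_zero _ hna
        apply mul_right_cancel₀ h11
        rw [h8]
        ring
      obtain ⟨e, he⟩ := coprime_pow hℓ ha0 (n := q - p) (by omega) (by omega) h9
      exact ha e he
    rcases lt_or_gt_of_ne hjk with h | h
    · exact key j k h (Finset.mem_range.1 hk) hcj hk0 h6
    · exact key k j h (Finset.mem_range.1 hj) hk0 hcj h6.symm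
  have hna : IsNonarchimedean s := isNonarchimedean_spectralNorm
  have hfin : s z = s (algebraMap F (AdjoinRoot G) (Y.coeff k) * α ^ k) := by
    rw [hzY]
    exact IsNonarchimedean.apply_sum_eq_of_lt hna (fun a => (map_neg_eq_map s a).symm) hk hlt
  apply hb (Y.coeff k) k
  rw [← hsz, hfin, hterm, mul_pow, ← pow_mul, mul_comm k ℓ, pow_mul, hsα]

end

theorem norm_eq_val {κ : Type} [Field κ] (v : Valuation κ ℝ≥0) (c : Cp v) :
    ∃ x : κ, ‖c‖ = v x := by
  by_cases hc0 : c = 0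
  · exact ⟨0, by rw [hc0, norm_zero, map_zero]; rfl⟩
  · obtain ⟨x, hx⟩ := near v c hc0
    refine ⟨x, ?_⟩
    have h1 : NormedField.valuation (emb v x) = NormedField.valuation c := by
      have e1 : emb v x = c - (c - emb v x) := by ring
      rw [e1]
      exact Valuation.map_sub_eq_of_lt_left _ hx
    have h2 := congrArg (fun t : ℝ≥0 => (t : ℝ)) (h1.symm.trans (val_emb v x))
    exact h2

/-- the value group modulo `ℓ`-th powers is not cyclic -/
theorem not_dimLe_compl_ram {κ : Type} [Field κ] (v : Valuation κ ℝ≥0) (hgt : ∃ a, 1 < v a)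
    {ℓ : ℕ} (hℓ : ℓ.Prime) (hchar : (ℓ : κ) ≠ 0)
    (hcyc : ¬ ∃ a : κ, a ≠ 0 ∧ ∀ b : κ, ∃ (c : κ) (i : ℕ), v b = v c ^ ℓ * v a ^ i) {D : ℕ}
    (hD : ℓ ≤ D) : ¬ DimLeOneUpTo (Cp v) D := by
  push Not at hcyc
  obtain ⟨a, ha⟩ := hcyc 1 one_ne_zero
  have ha0 : a ≠ 0 := by
    rintro rfl
    apply ha 0 0
    rw [map_zero, zero_pow hℓ.ne_zero, zero_mul]
  obtain ⟨b, hb⟩ := hcyc a ha0
  let _ : NontriviallyNormedField (Cp v) := ntr v hgt
  refine ram_not_dimLe (F := Cp v) hℓ ?_ (a := emb v a) (b := emb v b) ?_ ?_ ?_ hD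
  · intro h
    apply hchar
    rw [← map_natCast (emb v), map_eq_zero] at h
    exact h
  · rwa [Ne, map_eq_zero]
  · intro c hc
    obtain ⟨x, hx⟩ := norm_eq_val v c
    apply ha x 0
    rw [pow_zero, mul_one]
    have h1 : ‖emb v a‖ = ‖c‖ ^ ℓ := hc
    rw [norm_emb, hx] at h1
    exact_mod_cast h1
  · intro c i hc
    obtain ⟨x, hx⟩ := norm_eq_val v c
    apply hb x i
    have h1 : ‖emb v b‖ = ‖c‖ ^ ℓ * ‖emb v a‖ ^ i := hc
    rw [norm_emb, norm_emb, hx] at h1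
    exact_mod_cast h1

end Pool.Agent.TH686.NF
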