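import Pool.Agent.TH686.NF.Unram
import Pool.Agent.W882.Nip3.Defs

/-!
# A field with a suitable valuation has dimension greater than one
-/

set_option autoImplicit false

namespace Pool.Agent.TH686.NF

open Polynomial Pool.Agent.W882.Nip3

variable {Γ₀ : Type*} [LinearOrderedCommGroupWithZero Γ₀]

theorem not_dimLe {F : Type} [Field F] (v : Valuation F Γ₀) (g : v.valuationSubring[X])
    (hg : g.Monic) (hirr : Irreducible (g.map (IsLocalRing.residue v.valuationSubring)))
    (hsep : (g.map (IsLocalRing.residue v.valuationSubring)).Separable) {a : F} (ha : a ≠ 0)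
    (hdiv : ∀ c, v a ≠ v c ^ g.natDegree) {D : ℕ} (hD1 : 1 ≤ D) (hD : g.natDegree ≤ D) :
    ¬ DimLeOneUpTo F D := by
  intro H
  obtain ⟨G, hG⟩ : ∃ G, G = g.map (algebraMap v.valuationSubring F) := ⟨_, rfl⟩
  have hGi : Irreducible G := by rw [hG]; exact irred_G v g hg hirr
  have hGs : G.Separable := by rw [hG]; exact sep_G v g hg hirr hsep
  have hGm : G.Monic := by rw [hG]; exact hg.map _
  have hGd : G.natDegree = g.natDegree := by rw [hG]; exact hg.natDegree_map _
  let _ : Fact (Irreducible G) := ⟨hGi⟩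
  have h1 : FiniteDimensional F (AdjoinRoot G) := hGm.finite_adjoinRoot
  have h2 : Algebra.IsSeparable F (AdjoinRoot G) := isSeparable_adjoinRoot hGi hGs
  have h3 : Module.finrank F (AdjoinRoot G) ≤ D := by
    rw [Module.finrank_eq_card_basis (AdjoinRoot.powerBasisAux' hGm), Fintype.card_fin, hGd]
    exact hD
  have h4 := H F inferInstance inferInstance (by rw [Module.finrank_self]; exact hD1)
    (AdjoinRoot G) h1 h2 h3
  obtain ⟨z, hz⟩ := h4 a
  have hz0 : z ≠ 0 := by
    intro h
    apply ha
    rw [← hz, h, Algebra.norm_zero]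
  obtain ⟨c, -, hc⟩ := val_norm v g hg hirr G hG z hz0
  rw [hz] at hc
  exact hdiv c hc

section transfer

variable {κ F : Type*} [Field κ] [Field F] (v : Valuation κ Γ₀) (V : Valuation F Γ₀)
  (i : κ →+* F) (hi : ∀ x, V (i x) = v x)

/-- the map between the valuation rings -/
def jj : v.valuationSubring →+* V.valuationSubring where
  toFun x := ⟨i x, by
    change V (i x) ≤ 1
    rw [hi]
    exact x.2⟩
  map_one' := Subtype.ext (map_one i)
  map_mul' x y := Subtype.ext (map_mul i _ _)
  map_zero' := Subtype.ext (map_zero i)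
  map_add' x y := Subtype.ext (map_add i _ _)

theorem isUnit_iff (x : v.valuationSubring) : IsUnit x ↔ v (x : κ) = 1 := by
  constructor
  · intro h
    obtain ⟨b, hb⟩ := h.exists_right_inv
    have h1 : v (x : κ) * v (b : κ) = 1 := by
      rw [← map_mul, ← map_one v]
      congr 1
      exact congrArg Subtype.val hb
    have h2 : v (b : κ) ≤ 1 := b.2
    have h3 : v (x : κ) ≤ 1 := x.2
    refine le_antisymm h3 ?_
    calc (1 : Γ₀) = _ := h1.symm
      _ ≤ v (x : κ) * 1 := by gcongr
      _ = _ := mul_one _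
  · intro h
    have hx : (x : κ) ≠ 0 := by
      intro h0
      rw [h0, map_zero] at h
      exact zero_ne_one h
    refine IsUnit.of_mul_eq_one ⟨(x : κ)⁻¹, ?_⟩ (Subtype.ext (mul_inv_cancel₀ hx))
    change v (x : κ)⁻¹ ≤ 1
    rw [map_inv₀, h, inv_one]

instance jj_local : IsLocalHom (jj v V i hi) where
  map_nonunit x hx := by
    rw [isUnit_iff] at hx ⊢
    rw [← hx]
    exact (hi x).symm

theorem res_bij (hdense : ∀ y : F, y ≠ 0 → ∃ x : κ, V (y - i x) < V y) :
    Function.Bijective (IsLocalRing.ResidueField.map (jj v V i hi)) := by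
  refine ⟨RingHom.injective _, ?_⟩
  intro y
  obtain ⟨y, rfl⟩ := IsLocalRing.residue_surjective y
  by_cases h : V (y : F) < 1
  · refine ⟨0, ?_⟩
    rw [map_zero]
    symm
    rw [IsLocalRing.residue_eq_zero_iff, IsLocalRing.mem_maximalIdeal]
    intro hu
    rw [isUnit_iff] at hu
    exact h.ne hu
  · have h1 : V (y : F) = 1 := le_antisymm y.2 (not_lt.1 h)
    have hy0 : (y : F) ≠ 0 := by
      intro h0
      rw [h0, map_zero] at h1
      exact zero_ne_one h1
    obtain ⟨x, hx⟩ := hdense y hy0
    rw [h1] at hx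
    have hx1 : v x ≤ 1 := by
      rw [← hi]
      have : i x = (y : F) - ((y : F) - i x) := by ring
      rw [this]
      refine (V.map_sub _ _).trans (max_le h1.le hx.le)
    refine ⟨IsLocalRing.residue _ ⟨x, hx1⟩, ?_⟩
    rw [IsLocalRing.ResidueField.map_residue]
    symm
    rw [← sub_eq_zero, ← map_sub, IsLocalRing.residue_eq_zero_iff, IsLocalRing.mem_maximalIdeal]
    intro hu
    rw [isUnit_iff] at hu
    exact hx.ne hu

theorem transfer (hdense : ∀ y : F, y ≠ 0 → ∃ x : κ, V (y - i x) < V y)
    (f : v.valuationSubring[X]) (hirr : Irreducible (f.map (IsLocalRing.residue _)))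
    (hsep : (f.map (IsLocalRing.residue _)).Separable) :
    Irreducible ((f.map (jj v V i hi)).map (IsLocalRing.residue _)) ∧
      ((f.map (jj v V i hi)).map (IsLocalRing.residue _)).Separable := by
  have h1 : (f.map (jj v V i hi)).map (IsLocalRing.residue _) =
      (f.map (IsLocalRing.residue _)).map (IsLocalRing.ResidueField.map (jj v V i hi)) := by
    rw [Polynomial.map_map, Polynomial.map_map]
    congr 1
  rw [h1]
  refine ⟨?_, hsep.map⟩
  set e := RingEquiv.ofBijective _ (res_bij v V i hi hdense) with he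
  have h2 : (f.map (IsLocalRing.residue _)).map (IsLocalRing.ResidueField.map (jj v V i hi)) =
      Polynomial.mapEquiv e (f.map (IsLocalRing.residue _)) := by
    rfl
  rw [h2]
  exact (MulEquiv.irreducible_iff (Polynomial.mapEquiv e)).2 hirr

end transfer

end Pool.Agent.TH686.NF
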