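import Mathlib

/-!
# Norms from unramified extensions of a valued field
-/

set_option autoImplicit false

namespace Pool.Agent.TH686.NF

open Polynomial

/-- the matrix of the multiplication by `Y` modulo `f` -/
noncomputable def mulMat {R : Type*} [CommRing R] (f Y : R[X]) (d : ℕ) : Matrix (Fin d) (Fin d) R :=
  fun i j => ((Y * X ^ (j : ℕ)) %ₘ f).coeff i

theorem norm_mk {R : Type*} [CommRing R] {f : R[X]} (hf : f.Monic) (Y : R[X]) :
    Algebra.norm R (AdjoinRoot.mk f Y) = (mulMat f Y f.natDegree).det := by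
  classical
  rw [Algebra.norm_eq_matrix_det (AdjoinRoot.powerBasisAux' hf)]
  congr 1
  ext i j
  rw [Algebra.leftMulMatrix_eq_repr_mul]
  have h1 : AdjoinRoot.powerBasisAux' hf j = AdjoinRoot.mk f (X ^ (j : ℕ)) := by
    rw [map_pow, AdjoinRoot.mk_X]
    exact (AdjoinRoot.powerBasis' hf).basis_eq_pow j
  rw [h1, ← map_mul, AdjoinRoot.powerBasisAux'_repr_apply_to_fun, AdjoinRoot.modByMonicHom_mk]
  rfl

theorem norm_map {R S : Type*} [CommRing R] [CommRing S] [Nontrivial S] (φ : R →+* S) {f : R[X]}
    (hf : f.Monic) (Y : R[X]) :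
    Algebra.norm S (AdjoinRoot.mk (f.map φ) (Y.map φ)) = φ (Algebra.norm R (AdjoinRoot.mk f Y)) := by
  rw [norm_mk hf, norm_mk (hf.map φ), hf.natDegree_map φ, RingHom.map_det]
  congr 1
  ext i j
  simp only [mulMat, RingHom.mapMatrix_apply, Matrix.map_apply]
  rw [← Polynomial.coeff_map, Polynomial.map_modByMonic φ hf, Polynomial.map_mul,
    Polynomial.map_pow, Polynomial.map_X]

variable {F : Type*} [Field F] {Γ₀ : Type*} [LinearOrderedCommGroupWithZero Γ₀]

theorem val_norm (v : Valuation F Γ₀) (g : v.valuationSubring[X]) (hg : g.Monic)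
    (hirr : Irreducible (g.map (IsLocalRing.residue v.valuationSubring)))
    (G : F[X]) (hG : G = g.map (algebraMap v.valuationSubring F))
    (z : AdjoinRoot G) (hz : z ≠ 0) :
    ∃ c : F, c ≠ 0 ∧ v (Algebra.norm F z) = v c ^ g.natDegree := by
  classical
  have hGm : G.Monic := by rw [hG]; exact hg.map _
  have hGd : G.natDegree = g.natDegree := by rw [hG]; exact hg.natDegree_map _
  obtain ⟨Y0, rfl⟩ := AdjoinRoot.mk_surjective z
  set Y := Y0 %ₘ G with hY
  have hmk : AdjoinRoot.mk G Y0 = AdjoinRoot.mk G Y := by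
    rw [AdjoinRoot.mk_eq_mk, hY, modByMonic_eq_sub_mul_div, sub_sub_cancel]
    exact dvd_mul_right _ _
  rw [hmk] at hz ⊢
  have hY0 : Y ≠ 0 := by
    intro h
    rw [h, map_zero] at hz
    exact hz rfl
  have hYd : Y.degree < G.degree := degree_modByMonic_lt _ hGm
  obtain ⟨i₀, hi₀, hmax⟩ := Y.support.exists_max_image (fun i => v (Y.coeff i))
    (nonempty_support_iff.2 hY0)
  set c := Y.coeff i₀ with hc
  have hc0 : c ≠ 0 := mem_support_iff.1 hi₀
  have hvc : v c ≠ 0 := (Valuation.ne_zero_iff _).2 hc0
  have hle : ∀ i, v (Y.coeff i) ≤ v c := by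
    intro i
    by_cases h : Y.coeff i = 0
    · rw [h, map_zero]
      exact zero_le
    · exact hmax i (mem_support_iff.2 h)
  obtain ⟨Y2, hY2⟩ : ∃ Y2 : v.valuationSubring[X], Y2.map (algebraMap v.valuationSubring F) = C c⁻¹ * Y := by
    have h : C c⁻¹ * Y ∈ lifts (algebraMap v.valuationSubring F) := by
      rw [lifts_iff_coeff_lifts]
      intro i
      rw [coeff_C_mul]
      refine ⟨⟨c⁻¹ * Y.coeff i, ?_⟩, rfl⟩
      change v (c⁻¹ * Y.coeff i) ≤ 1
      rw [map_mul, map_inv₀, mul_comm, ← div_eq_mul_inv]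
      exact div_le_one_of_le₀ (hle i) zero_le
    exact (mem_lifts _).1 h
  have hinj : Function.Injective (algebraMap v.valuationSubring F) := Subtype.val_injective
  have hcoeff : Y2.coeff i₀ = 1 := by
    apply hinj
    rw [← coeff_map, hY2, coeff_C_mul, map_one]
    exact inv_mul_cancel₀ hc0
  have hY2d : Y2.degree < g.degree := by
    rw [← degree_map_eq_of_injective hinj Y2, hY2, degree_C_mul (inv_ne_zero hc0)]
    refine hYd.trans_eq ?_
    rw [hG]
    exact hg.degree_map _
  have hbar0 : Y2.map (IsLocalRing.residue v.valuationSubring) ≠ 0 := by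
    intro h
    have h1 : (Y2.map (IsLocalRing.residue v.valuationSubring)).coeff i₀ = 0 := by rw [h, coeff_zero]
    rw [coeff_map, hcoeff, map_one] at h1
    exact one_ne_zero h1
  have hbard : (Y2.map (IsLocalRing.residue v.valuationSubring)).degree <
      (g.map (IsLocalRing.residue v.valuationSubring)).degree := by
    rw [hg.degree_map]
    exact (degree_map_le).trans_lt hY2d
  have hgbm : (g.map (IsLocalRing.residue v.valuationSubring)).Monic := hg.map _
  have : Fact (Irreducible (g.map (IsLocalRing.residue v.valuationSubring))) := ⟨hirr⟩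
  have : Module.Finite (IsLocalRing.ResidueField v.valuationSubring)
      (AdjoinRoot (g.map (IsLocalRing.residue v.valuationSubring))) := hgbm.finite_adjoinRoot
  have hnk : Algebra.norm (IsLocalRing.ResidueField v.valuationSubring)
      (AdjoinRoot.mk (g.map (IsLocalRing.residue v.valuationSubring)) (Y2.map (IsLocalRing.residue v.valuationSubring))) ≠ 0 :=
    Algebra.norm_ne_zero_iff.2 (AdjoinRoot.mk_ne_zero_of_degree_lt hgbm hbar0 hbard)
  rw [norm_map (IsLocalRing.residue v.valuationSubring) hg] at hnk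
  have hunit : IsUnit (Algebra.norm v.valuationSubring (AdjoinRoot.mk g Y2)) := by
    by_contra h
    exact hnk ((IsLocalRing.residue_eq_zero_iff _).2 ((IsLocalRing.mem_maximalIdeal _).2 h))
  have hv1 : v (Algebra.norm F (AdjoinRoot.mk G (C c⁻¹ * Y))) = 1 := by
    subst hG
    rw [← hY2, norm_map (algebraMap v.valuationSubring F) hg]
    obtain ⟨b, hb⟩ := hunit.exists_right_inv
    have h1 : v (algebraMap v.valuationSubring F (Algebra.norm v.valuationSubring
        (AdjoinRoot.mk g Y2))) * v (algebraMap v.valuationSubring F b) = 1 := by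
      rw [← map_mul, ← map_mul, hb, map_one, map_one]
    have h2 : v (algebraMap v.valuationSubring F b) ≤ 1 := b.2
    have h3 : v (algebraMap v.valuationSubring F (Algebra.norm v.valuationSubring
        (AdjoinRoot.mk g Y2))) ≤ 1 := (Algebra.norm v.valuationSubring (AdjoinRoot.mk g Y2)).2
    refine le_antisymm h3 ?_
    calc (1 : Γ₀) = _ := h1.symm
      _ ≤ v (algebraMap v.valuationSubring F (Algebra.norm v.valuationSubring
        (AdjoinRoot.mk g Y2))) * 1 := by gcongr
      _ = _ := mul_one _
  refine ⟨c, hc0, ?_⟩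
  have hfac : AdjoinRoot.mk G Y = algebraMap F (AdjoinRoot G) c * AdjoinRoot.mk G (C c⁻¹ * Y) := by
    rw [AdjoinRoot.algebraMap_eq, ← AdjoinRoot.mk_C, ← map_mul, ← mul_assoc, ← C_mul,
      mul_inv_cancel₀ hc0, C_1, one_mul]
  rw [hfac, map_mul, map_mul, hv1, mul_one,
    Algebra.norm_algebraMap_of_basis (AdjoinRoot.powerBasisAux' hGm), Fintype.card_fin,
    hGd, map_pow]

theorem irred_G (v : Valuation F Γ₀) (g : v.valuationSubring[X]) (hg : g.Monic)
    (hirr : Irreducible (g.map (IsLocalRing.residue v.valuationSubring))) :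
    Irreducible (g.map (algebraMap v.valuationSubring F)) := by
  have h1 : Irreducible g :=
    Polynomial.Monic.irreducible_of_irreducible_map (IsLocalRing.residue v.valuationSubring) g hg
      hirr
  exact hg.irreducible_iff_irreducible_map_fraction_map.1 h1

theorem sep_G (v : Valuation F Γ₀) (g : v.valuationSubring[X]) (hg : g.Monic)
    (hirr : Irreducible (g.map (IsLocalRing.residue v.valuationSubring)))
    (hsep : (g.map (IsLocalRing.residue v.valuationSubring)).Separable) :
    (g.map (algebraMap v.valuationSubring F)).Separable := by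
  rw [separable_iff_derivative_ne_zero (irred_G v g hg hirr)]
  rw [separable_iff_derivative_ne_zero hirr] at hsep
  intro h
  apply hsep
  rw [derivative_map] at h ⊢
  have hinj : Function.Injective (algebraMap v.valuationSubring F) := Subtype.val_injective
  rw [(Polynomial.map_eq_zero_iff hinj).1 h, Polynomial.map_zero]

theorem isSeparable_adjoinRoot {G : F[X]} (hG : Irreducible G) (hsep : G.Separable) :
    letI : Fact (Irreducible G) := ⟨hG⟩
    Algebra.IsSeparable F (AdjoinRoot G) := by
  let _ : Fact (Irreducible G) := ⟨hG⟩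
  have h1 : IsSeparable F (AdjoinRoot.root G) := by
    have h2 : minpoly F (AdjoinRoot.root G) ∣ G :=
      minpoly.dvd _ _ (by rw [AdjoinRoot.aeval_eq, AdjoinRoot.mk_self])
    exact hsep.of_dvd h2
  have h3 := (IntermediateField.isSeparable_adjoin_simple_iff_isSeparable F (AdjoinRoot G)).2 h1
  have h4 : IntermediateField.adjoin F {AdjoinRoot.root G} = ⊤ := by
    have h5 := AdjoinRoot.adjoinRoot_eq_top (f := G)
    rw [eq_top_iff]
    intro x _
    have h6 : x ∈ Algebra.adjoin F {AdjoinRoot.root G} := by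
      rw [h5]
      trivial
    exact IntermediateField.algebra_adjoin_le_adjoin _ _ h6
  rw [h4] at h3
  exact (AlgEquiv.Algebra.isSeparable (IntermediateField.topEquiv (F := F) (E := AdjoinRoot G)))

end Pool.Agent.TH686.NF
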